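import Pool.Agent.K1H3.SW.Num
import Pool.Agent.W387.S.Lnk

/-!
The windowed fold: extendable pairs `(Y | X)` whose widths differ by a number in a window of
length `h` have mass at most `C (log)² U h` at the critical point.
-/

set_option linter.unusedSectionVars false

namespace Pool.Agent.K1H95.SW

open H982 hiding PU LL
open scoped ENNReal
open PowerSeries
open Pool.Agent.K1H3.SW
open Pool.Agent.W387.S (PP CC Ec Nc exists_triple_r coeff_Ec_le CC_nil_left CC_nil_right)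

variable [L : H982.Lat]

/-- sum over the second component in the window -/
lemma mf_dep {α β : Type*} (P : α → Prop) (f : α → List St) (R : α → β → Prop)
    (g : β → List St) {c : ℝ≥0∞} (hc : ∀ a, P a → mf (R a) g ≤ c) :
    mf (fun q : α × β => P q.1 ∧ R q.1 q.2) (fun q => f q.1 ++ g q.2) ≤ mf P f * c := by
  unfold mf
  rw [ENNReal.tsum_prod', ← ENNReal.tsum_mul_right]
  refine ENNReal.tsum_le_tsum fun a => ?_
  by_cases h : P a
  · calc ∑' b, ind (P (a, b).1 ∧ R (a, b).1 (a, b).2) *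
          zc ^ (f (a, b).1 ++ g (a, b).2).length
        = ∑' b, (zc ^ (f a).length) * (ind (R a b) * zc ^ (g b).length) := by
          refine tsum_congr fun b => ?_
          simp only
          rw [ind_and, ind_of h, List.length_append, pow_add]
          ring
      _ = (zc ^ (f a).length) * mf (R a) g := by rw [ENNReal.tsum_mul_left]; rfl
      _ ≤ (zc ^ (f a).length) * c := mul_le_mul' le_rfl (hc a h)
      _ = _ := by rw [ind_of h, one_mul]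
  · refine le_trans (le_of_eq ?_) zero_le
    rw [ENNReal.tsum_eq_zero]
    intro b
    rw [ind_not (fun h' => h h'.1), zero_mul]

/-- bridges with width in an integer window -/
lemma window_int (x : ℤ) (h : ℕ) :
    mf (fun F : List St => IsB F ∧ x ≤ (wd F : ℤ) ∧ (wd F : ℤ) ≤ x + h) id ≤ U h := by
  rcases le_or_gt 0 x with hx | hx
  · obtain ⟨a, rfl⟩ := Int.eq_ofNat_of_zero_le hx
    refine le_trans ?_ (Uw_window a h)
    unfold Uw
    rw [← mf_id]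
    exact mf_mono fun w hw => ⟨hw.1, by have := hw.2.1; omega, by have := hw.2.2; omega⟩
  · unfold U
    rw [← mf_id]
    exact mf_mono fun w hw => ⟨hw.1, by have := hw.2.2; omega⟩

/-- marks: an irreducible piece together with a mark less than `min (wd ι) b` -/
lemma marks_le {b : ℕ} (hb : 1 ≤ b) :
    mf (fun q : ℕ × List St => (q.1 < wd q.2 ∧ q.1 < b) ∧ Irr q.2) (fun q => q.2) ≤
      3 * b * (U b)⁻¹ := by
  have hb0 : (b : ℝ≥0∞) ≠ 0 := by simp; omega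
  have hbt : (b : ℝ≥0∞) ≠ ⊤ := ENNReal.natCast_ne_top b
  have hU0 : U b ≠ 0 := (lt_of_lt_of_le zero_lt_one (one_le_U b)).ne'
  have hUt := U_ne_top b
  have h1 : mf (fun q : ℕ × List St => (q.1 < wd q.2 ∧ q.1 < b) ∧ Irr q.2) (fun q => q.2) ≤
      mf (fun q : ℕ × List St => q.1 < wd q.2 ∧ (Irr q.2 ∧ wd q.2 ≤ b)) (fun q => q.2) +
      mf (fun q : ℕ × List St => q.1 < b ∧ (Irr q.2 ∧ b + 1 ≤ wd q.2)) (fun q => q.2) := by
    unfold mf
    rw [← ENNReal.tsum_add]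
    refine ENNReal.tsum_le_tsum fun q => ?_
    rw [← add_mul]
    refine mul_le_mul' ?_ le_rfl
    by_cases hP : (q.1 < wd q.2 ∧ q.1 < b) ∧ Irr q.2
    · rcases le_or_gt (wd q.2) b with h2 | h2
      · rw [ind_of hP, ind_of (p := q.1 < wd q.2 ∧ (Irr q.2 ∧ wd q.2 ≤ b)) ⟨hP.1.1, hP.2, h2⟩]
        exact le_self_add
      · rw [ind_of hP, ind_of (p := q.1 < b ∧ (Irr q.2 ∧ b + 1 ≤ wd q.2)) ⟨hP.1.2, hP.2, h2⟩]
        exact le_add_self
    · rw [ind_not hP]; exact zero_le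
  have h2 : mf (fun q : ℕ × List St => q.1 < wd q.2 ∧ (Irr q.2 ∧ wd q.2 ≤ b)) (fun q => q.2) =
      ev zc (Ks b) := by
    unfold Ks
    rw [ev_fs]
    unfold mf
    rw [ENNReal.tsum_prod', ENNReal.tsum_comm]
    refine tsum_congr fun w => ?_
    rw [ev_ii_mul, ev_cst_mul, ev_xl]
    simp only
    have h3 : ∀ m : ℕ, ind (m < wd w ∧ (Irr w ∧ wd w ≤ b)) * zc ^ w.length =
        ind (m < wd w) * (ind (Irr w ∧ wd w ≤ b) * zc ^ w.length) := by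
      intro m
      rw [ind_and (m < wd w)]; ring
    simp_rw [h3]
    rw [ENNReal.tsum_mul_right]
    have h4 : ∑' m : ℕ, ind (m < wd w) = (wd w : ℝ≥0∞) := by
      rw [tsum_eq_sum (s := Finset.range (wd w))]
      · rw [Finset.sum_congr rfl (fun m hm => ind_of (Finset.mem_range.mp hm))]
        simp
      · intro m hm
        exact ind_not (fun h => hm (Finset.mem_range.mpr h))
    rw [h4]; ring
  have h5 : mf (fun q : ℕ × List St => q.1 < b ∧ (Irr q.2 ∧ b + 1 ≤ wd q.2)) (fun q => q.2) =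
      b * Lam (b + 1) := by
    unfold Lam ms mf
    rw [ENNReal.tsum_prod', ENNReal.tsum_comm, ← ENNReal.tsum_mul_left]
    refine tsum_congr fun w => ?_
    simp only
    have h3 : ∀ m : ℕ, ind (m < b ∧ (Irr w ∧ b + 1 ≤ wd w)) * zc ^ w.length =
        ind (m < b) * (ind (Irr w ∧ b + 1 ≤ wd w) * zc ^ w.length) := by
      intro m
      rw [ind_and (m < b)]; ring
    simp_rw [h3]
    rw [ENNReal.tsum_mul_right]
    have h4 : ∑' m : ℕ, ind (m < b) = (b : ℝ≥0∞) := by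
      rw [tsum_eq_sum (s := Finset.range b)]
      · rw [Finset.sum_congr rfl (fun m hm => ind_of (Finset.mem_range.mp hm))]
        simp
      · intro m hm
        exact ind_not (fun h => hm (Finset.mem_range.mpr h))
    rw [h4]
  have h6 : ev zc (Ks b) ≤ 2 * b * (U b)⁻¹ := by
    have h7 := K_le b hb
    calc ev zc (Ks b) = ev zc (Ks b) * (b : ℝ≥0∞)⁻¹ * b := by
          rw [mul_assoc, ENNReal.inv_mul_cancel hb0 hbt, mul_one]
      _ ≤ 2 * (U b)⁻¹ * b := mul_le_mul' h7 le_rfl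
      _ = _ := by ring
  have h8 : Lam (b + 1) ≤ (U b)⁻¹ := by
    rw [ENNReal.le_inv_iff_mul_le, mul_comm]
    exact U_Lam b
  calc _ ≤ _ := h1
    _ ≤ 2 * b * (U b)⁻¹ + b * (U b)⁻¹ := by
        rw [h2, h5]
        exact add_le_add h6 (mul_le_mul' le_rfl h8)
    _ = _ := by ring

/-- the crude fold at the critical point -/
lemma crude_le {r W : ℕ} (hr : 1 ≤ r) (hrW : r ≤ W) :
    mf (fun p : LL => (IsB p.1 ∧ IsB p.2 ∧ PP p.1 p.2) ∧ wd p.1 ≤ r ∧ wd p.2 ≤ W)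
      (fun p => p.1 ++ p.2) ≤ (2 + 16 * (Nat.log 2 W + 1) : ℕ) * U (8 * W) := by
  have h1 : ev zc (Ec r W) ≤ (2 + 16 * (Nat.log 2 W + 1) : ℕ) * U (8 * W) := by
    have h2 : Ec r W ≤ cst ((2 + 16 * (Nat.log 2 W + 1) : ℕ) : ℝ≥0∞) * Us (8 * W) := by
      intro n
      rw [coeff_cst_mul]
      exact coeff_Ec_le n r W hr hrW
    have h3 := ev_mono (z := zc) h2
    rw [ev_cst_mul] at h3
    have e : ev zc (Us (8 * W)) = U (8 * W) := ev_fs_ii _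
    rwa [e] at h3
  refine le_trans ?_ h1
  unfold Ec Nc
  rw [ev_fs]
  unfold mf
  rw [ENNReal.tsum_prod']
  refine ENNReal.tsum_le_tsum fun X => ?_
  rw [ev_ii_mul, ev_mul, ev_xl, ev_fs, ← ENNReal.tsum_mul_left, ← ENNReal.tsum_mul_left]
  refine ENNReal.tsum_le_tsum fun Y => ?_
  rw [ev_ii_mul, ev_xl]
  simp only
  by_cases h : (IsB X ∧ IsB Y ∧ PP X Y) ∧ wd X ≤ r ∧ wd Y ≤ W
  · obtain ⟨⟨a1, a2, a3⟩, a4, a5⟩ := h
    have hCC : CC r X Y := by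
      intro u X' hu hX' he hw
      subst he
      exact a3.suf hu hX'
    rw [ind_of ⟨⟨a1, a2, a3⟩, a4, a5⟩, ind_of (p := IsB X ∧ wd X ≤ r) ⟨a1, a4⟩,
      ind_of (p := (IsB Y ∧ wd Y ≤ W) ∧ CC r X Y) ⟨⟨a2, a5⟩, hCC⟩, List.length_append, pow_add]
    simp
  · rw [ind_not h, zero_mul]; exact zero_le


/-- pairs with difference of the widths in the window `[x, x + h]` -/
def WinP (x : ℤ) (h : ℕ) (p : LL) : Prop :=
  (IsB p.1 ∧ IsB p.2 ∧ PP p.1 p.2) ∧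
    x ≤ (wd p.1 : ℤ) - wd p.2 ∧ (wd p.1 : ℤ) - wd p.2 ≤ x + h

/-- the first word is the wider one -/
lemma winA {b : ℕ} (hb : 1 ≤ b) (x : ℤ) (h : ℕ) :
    (b : ℝ≥0∞) * mf (fun p : LL => WinP x h p ∧ b ≤ wd p.1 ∧ (b ≤ wd p.2 ∧ wd p.2 < 2 * b))
      (fun p => p.1 ++ p.2) ≤
    (3 * b * (U b)⁻¹) * ((2 + 16 * (Nat.log 2 (2 * b) + 1) : ℕ) * U (8 * (2 * b))) * U h := by
  have h1 : (b : ℝ≥0∞) * mf (fun p : LL => WinP x h p ∧ b ≤ wd p.1 ∧ (b ≤ wd p.2 ∧ wd p.2 < 2 * b))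
      (fun p => p.1 ++ p.2) = mf (fun q : ℕ × LL => q.1 < b ∧
        (WinP x h q.2 ∧ b ≤ wd q.2.1 ∧ (b ≤ wd q.2.2 ∧ wd q.2.2 < 2 * b)))
        (fun q => [] ++ (q.2.1 ++ q.2.2)) := by
    have h2 : (b : ℝ≥0∞) = mf (fun m : ℕ => m < b) (fun _ => []) := by
      unfold mf
      rw [tsum_eq_sum (s := Finset.range b)]
      · rw [Finset.sum_congr rfl (fun m hm => by rw [ind_of (Finset.mem_range.mp hm)])]
        simp
      · intro m hm
        rw [ind_not (fun h => hm (Finset.mem_range.mpr h)), zero_mul]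
    conv_lhs => rw [h2]
    exact mf_mul (fun m : ℕ => m < b) (fun _ => []) _ (fun p : LL => p.1 ++ p.2)
  rw [h1]
  have h3 : mf (fun q : ℕ × LL => q.1 < b ∧
        (WinP x h q.2 ∧ b ≤ wd q.2.1 ∧ (b ≤ wd q.2.2 ∧ wd q.2.2 < 2 * b)))
        (fun q => [] ++ (q.2.1 ++ q.2.2)) ≤
      mf (fun t : ((ℕ × List St) × LL) × List St =>
        (((t.1.1.1 < wd t.1.1.2 ∧ t.1.1.1 < b) ∧ Irr t.1.1.2) ∧
          ((IsB t.1.2.1 ∧ IsB t.1.2.2 ∧ PP t.1.2.1 t.1.2.2) ∧ wd t.1.2.1 ≤ b ∧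
            wd t.1.2.2 ≤ 2 * b)) ∧
        (IsB t.2 ∧ (x + wd t.1.2.2 - wd t.1.1.2 - wd t.1.2.1) ≤ (wd t.2 : ℤ) ∧
          (wd t.2 : ℤ) ≤ (x + wd t.1.2.2 - wd t.1.1.2 - wd t.1.2.1) + h))
        (fun t => (t.1.1.2 ++ (t.1.2.1 ++ t.1.2.2)) ++ t.2) := by
    refine mf_cover (fun t => (wd t.1.2.1 + t.1.1.1, (t.2 ++ (t.1.1.2 ++ t.1.2.1), t.1.2.2))) ?_
    rintro ⟨m, Y, X⟩ ⟨hm, ⟨⟨hY, hX, hPP⟩, hx1, hx2⟩, hY2, hX1, hX2⟩
    simp only at hm hY hX hPP hx1 hx2 hY2 hX1 hX2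
    obtain ⟨F, ι, Y', rfl, hF, hι, hY', h4, h5⟩ := exists_triple_r hY.br (m := m) (by omega)
    have h6 := wd_append hF (hι.1.append hY')
    have h7 := wd_append hι.1 hY'
    refine ⟨(((m - wd Y', ι), (Y', X)), F), ⟨⟨⟨⟨?_, ?_⟩, hι⟩, ⟨⟨hY', hX, ?_⟩, ?_, ?_⟩⟩,
      hF, ?_, ?_⟩, ?_, ?_⟩
    · simp only; omega
    · simp only; omega
    · exact (hPP.suf hF (hι.1.append hY')).suf hι.1 hY'
    · simp only; omega
    · simp only; omega
    · simp only; push_cast [h6, h7] at hx1; omega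
    · simp only; push_cast [h6, h7] at hx2; omega
    · simp only [Prod.mk.injEq, and_true]; omega
    · simp only [List.nil_append, List.length_append]; omega
  refine h3.trans ?_
  refine (mf_dep (fun a : (ℕ × List St) × LL =>
      ((a.1.1 < wd a.1.2 ∧ a.1.1 < b) ∧ Irr a.1.2) ∧
          ((IsB a.2.1 ∧ IsB a.2.2 ∧ PP a.2.1 a.2.2) ∧ wd a.2.1 ≤ b ∧ wd a.2.2 ≤ 2 * b))
      (fun a => a.1.2 ++ (a.2.1 ++ a.2.2)) (fun (a : (ℕ × List St) × LL) (F : List St) =>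
    IsB F ∧ (x + wd a.2.2 - wd a.1.2 - wd a.2.1) ≤ (wd F : ℤ) ∧
          (wd F : ℤ) ≤ (x + wd a.2.2 - wd a.1.2 - wd a.2.1) + h) id
      (fun a _ => window_int _ h)).trans ?_
  refine mul_le_mul' ?_ le_rfl
  rw [← mf_mul (fun q : ℕ × List St => (q.1 < wd q.2 ∧ q.1 < b) ∧ Irr q.2) (fun q => q.2)
    (fun p : LL => (IsB p.1 ∧ IsB p.2 ∧ PP p.1 p.2) ∧ wd p.1 ≤ b ∧ wd p.2 ≤ 2 * b)
    (fun p => p.1 ++ p.2)]
  exact mul_le_mul' (marks_le hb) (crude_le hb (by omega))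

/-- the second word is the wider one -/
lemma winB {b : ℕ} (hb : 1 ≤ b) (x : ℤ) (h : ℕ) :
    (b : ℝ≥0∞) * mf (fun p : LL => WinP x h p ∧ b ≤ wd p.2 ∧ (b ≤ wd p.1 ∧ wd p.1 < 2 * b))
      (fun p => p.1 ++ p.2) ≤
    (3 * b * (U b)⁻¹) * ((2 + 16 * (Nat.log 2 (2 * b) + 1) : ℕ) * U (8 * (2 * b))) * U h := by
  have h1 : (b : ℝ≥0∞) * mf (fun p : LL => WinP x h p ∧ b ≤ wd p.2 ∧ (b ≤ wd p.1 ∧ wd p.1 < 2 * b))
      (fun p => p.1 ++ p.2) = mf (fun q : ℕ × LL => q.1 < b ∧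
        (WinP x h q.2 ∧ b ≤ wd q.2.2 ∧ (b ≤ wd q.2.1 ∧ wd q.2.1 < 2 * b)))
        (fun q => [] ++ (q.2.1 ++ q.2.2)) := by
    have h2 : (b : ℝ≥0∞) = mf (fun m : ℕ => m < b) (fun _ => []) := by
      unfold mf
      rw [tsum_eq_sum (s := Finset.range b)]
      · rw [Finset.sum_congr rfl (fun m hm => by rw [ind_of (Finset.mem_range.mp hm)])]
        simp
      · intro m hm
        rw [ind_not (fun h => hm (Finset.mem_range.mpr h)), zero_mul]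
    conv_lhs => rw [h2]
    exact mf_mul (fun m : ℕ => m < b) (fun _ => []) _ (fun p : LL => p.1 ++ p.2)
  rw [h1]
  have h3 : mf (fun q : ℕ × LL => q.1 < b ∧
        (WinP x h q.2 ∧ b ≤ wd q.2.2 ∧ (b ≤ wd q.2.1 ∧ wd q.2.1 < 2 * b)))
        (fun q => [] ++ (q.2.1 ++ q.2.2)) ≤
      mf (fun t : ((ℕ × List St) × LL) × List St =>
        (((t.1.1.1 < wd t.1.1.2 ∧ t.1.1.1 < b) ∧ Irr t.1.1.2) ∧
          ((IsB t.1.2.1 ∧ IsB t.1.2.2 ∧ PP t.1.2.1 t.1.2.2) ∧ wd t.1.2.1 ≤ 2 * b ∧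
            wd t.1.2.2 ≤ 2 * b)) ∧
        (IsB t.2 ∧ ((wd t.1.2.1 : ℤ) - x - h - wd t.1.1.2 - wd t.1.2.2) ≤ (wd t.2 : ℤ) ∧
          (wd t.2 : ℤ) ≤ ((wd t.1.2.1 : ℤ) - x - h - wd t.1.1.2 - wd t.1.2.2) + h))
        (fun t => (t.1.1.2 ++ (t.1.2.1 ++ t.1.2.2)) ++ t.2) := by
    refine mf_cover (fun t => (wd t.1.2.2 + t.1.1.1, (t.1.2.1, t.1.2.2 ++ (t.1.1.2 ++ t.2)))) ?_
    rintro ⟨m, Y, X⟩ ⟨hm, ⟨⟨hY, hX, hPP⟩, hx1, hx2⟩, hX2, hY1, hY2⟩
    simp only at hm hY hX hPP hx1 hx2 hX2 hY1 hY2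
    obtain ⟨X', ι, F, rfl, hX', hι, hF, h4, h5⟩ := exists_triple hX.br (m := m) (by omega)
    have h6 := wd_append hX' (hι.1.append hF)
    have h7 := wd_append hι.1 hF
    refine ⟨(((m - wd X', ι), (Y, X')), F), ⟨⟨⟨⟨?_, ?_⟩, hι⟩, ⟨⟨hY, hX', ?_⟩, ?_, ?_⟩⟩,
      hF, ?_, ?_⟩, ?_, ?_⟩
    · simp only; omega
    · simp only; omega
    · exact hPP.pre hX' (hι.1.append hF)
    · simp only; omega
    · simp only; omega
    · simp only; push_cast [h6, h7] at hx2; omega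
    · simp only; push_cast [h6, h7] at hx1; omega
    · simp only [Prod.mk.injEq, and_true]; omega
    · simp only [List.nil_append, List.length_append]; omega
  refine h3.trans ?_
  refine (mf_dep (fun a : (ℕ × List St) × LL =>
      ((a.1.1 < wd a.1.2 ∧ a.1.1 < b) ∧ Irr a.1.2) ∧
          ((IsB a.2.1 ∧ IsB a.2.2 ∧ PP a.2.1 a.2.2) ∧ wd a.2.1 ≤ 2 * b ∧ wd a.2.2 ≤ 2 * b))
      (fun a => a.1.2 ++ (a.2.1 ++ a.2.2)) (fun (a : (ℕ × List St) × LL) (F : List St) =>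
    IsB F ∧ ((wd a.2.1 : ℤ) - x - h - wd a.1.2 - wd a.2.2) ≤ (wd F : ℤ) ∧
          (wd F : ℤ) ≤ ((wd a.2.1 : ℤ) - x - h - wd a.1.2 - wd a.2.2) + h) id
      (fun a _ => window_int _ h)).trans ?_
  refine mul_le_mul' ?_ le_rfl
  rw [← mf_mul (fun q : ℕ × List St => (q.1 < wd q.2 ∧ q.1 < b) ∧ Irr q.2) (fun q => q.2)
    (fun p : LL => (IsB p.1 ∧ IsB p.2 ∧ PP p.1 p.2) ∧ wd p.1 ≤ 2 * b ∧ wd p.2 ≤ 2 * b)
    (fun p => p.1 ++ p.2)]
  exact mul_le_mul' (marks_le hb) (crude_le (by omega) le_rfl)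

lemma scale_const {b : ℕ} (hb : 1 ≤ b) {M : ℝ≥0∞} (x : ℝ≥0∞)
    (hM : (b : ℝ≥0∞) * M ≤
      (3 * b * (U b)⁻¹) * ((2 + 16 * (Nat.log 2 (2 * b) + 1) : ℕ) * U (8 * (2 * b))) * x) :
    M ≤ 48 * (2 + 16 * (Nat.log 2 b + 2) : ℕ) * x := by
  have hb0 : (b : ℝ≥0∞) ≠ 0 := by simp; omega
  have hbt : (b : ℝ≥0∞) ≠ ⊤ := ENNReal.natCast_ne_top b
  have hU0 : U b ≠ 0 := (lt_of_lt_of_le zero_lt_one (one_le_U b)).ne'
  have hUt := U_ne_top b
  have h1 : U (8 * (2 * b)) ≤ 16 * U b := by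
    have := U_mul 15 b
    rw [show (15 + 1) * b = 8 * (2 * b) by ring] at this
    refine this.trans (le_of_eq ?_)
    norm_num
  have h2 : Nat.log 2 (2 * b) = Nat.log 2 b + 1 := by
    rw [mul_comm, Nat.log_mul_base (by norm_num) (by omega)]
  have h3 : (b : ℝ≥0∞) * M ≤ b * (48 * (2 + 16 * (Nat.log 2 b + 2) : ℕ) * x) := by
    refine hM.trans ?_
    rw [h2]
    calc (3 * b * (U b)⁻¹) * ((2 + 16 * (Nat.log 2 b + 1 + 1) : ℕ) * U (8 * (2 * b))) * x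
        ≤ (3 * b * (U b)⁻¹) * ((2 + 16 * (Nat.log 2 b + 1 + 1) : ℕ) * (16 * U b)) * x := by
          gcongr
      _ = b * (48 * (2 + 16 * (Nat.log 2 b + 2) : ℕ) * x) * (U b * (U b)⁻¹) := by ring
      _ = _ := by rw [ENNReal.mul_inv_cancel hU0 hUt, mul_one]
  exact (ENNReal.mul_le_mul_iff_right hb0 hbt).mp h3

/-- **the windowed fold** -/
theorem win_le (r h : ℕ) (x : ℤ) :
    mf (fun p : LL => WinP x h p ∧ (wd p.1 ≤ r ∧ wd p.2 ≤ r)) (fun p => p.1 ++ p.2) ≤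
      (4000 * (Nat.log 2 r + 1) ^ 2 : ℕ) * U h := by
  obtain ⟨J, hJ⟩ : ∃ J, J = Nat.log 2 r + 1 := ⟨_, rfl⟩
  have h1 : mf (fun p : LL => WinP x h p ∧ (wd p.1 ≤ r ∧ wd p.2 ≤ r)) (fun p => p.1 ++ p.2) ≤
      (mf (fun p : LL => WinP x h p ∧ p.1 = []) (fun p => p.1 ++ p.2) +
       mf (fun p : LL => WinP x h p ∧ p.2 = []) (fun p => p.1 ++ p.2)) +
      ∑ j ∈ Finset.range J,
        (mf (fun p : LL => WinP x h p ∧ 2 ^ j ≤ wd p.1 ∧ (2 ^ j ≤ wd p.2 ∧ wd p.2 < 2 * 2 ^ j))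
          (fun p => p.1 ++ p.2) +
        mf (fun p : LL => WinP x h p ∧ 2 ^ j ≤ wd p.2 ∧ (2 ^ j ≤ wd p.1 ∧ wd p.1 < 2 * 2 ^ j))
          (fun p => p.1 ++ p.2)) := by
    unfold mf
    simp_rw [← ENNReal.tsum_add]
    rw [← Summable.tsum_finsetSum (fun _ _ => ENNReal.summable), ← ENNReal.tsum_add]
    refine ENNReal.tsum_le_tsum fun p => ?_
    by_cases hp : WinP x h p ∧ (wd p.1 ≤ r ∧ wd p.2 ≤ r)
    · rw [ind_of hp, one_mul]
      obtain ⟨hw, h2, h3⟩ := hp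
      by_cases e1 : p.1 = []
      · rw [ind_of (p := WinP x h p ∧ p.1 = []) ⟨hw, e1⟩, one_mul, add_assoc]
        exact le_self_add
      by_cases e2 : p.2 = []
      · rw [ind_of (p := WinP x h p ∧ p.2 = []) ⟨hw, e2⟩, one_mul]
        exact le_trans le_add_self le_self_add
      have p1 := hw.1.1.wd_pos e1
      have p2 := hw.1.2.1.wd_pos e2
      refine le_trans ?_ le_add_self
      rcases le_total (wd p.2) (wd p.1) with h4 | h4
      · have h5 : Nat.log 2 (wd p.2) < J := by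
          rw [hJ]; exact Nat.lt_succ_of_le (Nat.log_mono_right h3)
        have a1 : 2 ^ Nat.log 2 (wd p.2) ≤ wd p.2 := Nat.pow_log_le_self 2 (by omega)
        have a2 : wd p.2 < 2 * 2 ^ Nat.log 2 (wd p.2) := by
          have := Nat.lt_pow_succ_log_self (b := 2) (by norm_num) (wd p.2)
          rw [Nat.succ_eq_add_one, pow_succ] at this; omega
        refine le_trans ?_ (Finset.single_le_sum (fun _ _ => zero_le) (Finset.mem_range.mpr h5))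
        rw [ind_of (p := WinP x h p ∧ 2 ^ Nat.log 2 (wd p.2) ≤ wd p.1 ∧
          (2 ^ Nat.log 2 (wd p.2) ≤ wd p.2 ∧ wd p.2 < 2 * 2 ^ Nat.log 2 (wd p.2)))
          ⟨hw, a1.trans h4, a1, a2⟩, one_mul]
        exact le_self_add
      · have h5 : Nat.log 2 (wd p.1) < J := by
          rw [hJ]; exact Nat.lt_succ_of_le (Nat.log_mono_right h2)
        have a1 : 2 ^ Nat.log 2 (wd p.1) ≤ wd p.1 := Nat.pow_log_le_self 2 (by omega)
        have a2 : wd p.1 < 2 * 2 ^ Nat.log 2 (wd p.1) := by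
          have := Nat.lt_pow_succ_log_self (b := 2) (by norm_num) (wd p.1)
          rw [Nat.succ_eq_add_one, pow_succ] at this; omega
        refine le_trans ?_ (Finset.single_le_sum (fun _ _ => zero_le) (Finset.mem_range.mpr h5))
        rw [ind_of (p := WinP x h p ∧ 2 ^ Nat.log 2 (wd p.1) ≤ wd p.2 ∧
          (2 ^ Nat.log 2 (wd p.1) ≤ wd p.1 ∧ wd p.1 < 2 * 2 ^ Nat.log 2 (wd p.1)))
          ⟨hw, a1.trans h4, a1, a2⟩, one_mul]
        exact le_add_self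
    · rw [ind_not hp, zero_mul]; exact zero_le
  have h2 : mf (fun p : LL => WinP x h p ∧ p.1 = []) (fun p => p.1 ++ p.2) ≤ U h := by
    refine le_trans ?_ (window_int (-x - h) h)
    refine mf_inj (fun p => p.2) ?_ ?_ ?_
    · rintro ⟨a, b⟩ ⟨c, d⟩ ⟨-, h3⟩ ⟨-, h4⟩ h5
      simp only at h3 h4 h5
      rw [h3, h4, h5]
    · rintro ⟨a, b⟩ ⟨⟨⟨-, h3, -⟩, h4, h5⟩, h6⟩
      simp only at h3 h4 h5 h6 ⊢
      subst h6
      have : wd ([] : List St) = 0 := by simp [wd]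
      rw [this] at h4 h5
      push_cast at h4 h5
      exact ⟨h3, by omega, by omega⟩
    · rintro ⟨a, b⟩ ⟨-, h6⟩
      simp only at h6 ⊢
      subst h6; rfl
  have h3 : mf (fun p : LL => WinP x h p ∧ p.2 = []) (fun p => p.1 ++ p.2) ≤ U h := by
    refine le_trans ?_ (window_int x h)
    refine mf_inj (fun p => p.1) ?_ ?_ ?_
    · rintro ⟨a, b⟩ ⟨c, d⟩ ⟨-, h3⟩ ⟨-, h4⟩ h5
      simp only at h3 h4 h5
      rw [h3, h4, h5]
    · rintro ⟨a, b⟩ ⟨⟨⟨h3, -, -⟩, h4, h5⟩, h6⟩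
      simp only at h3 h4 h5 h6 ⊢
      subst h6
      have : wd ([] : List St) = 0 := by simp [wd]
      rw [this] at h4 h5
      push_cast at h4 h5
      exact ⟨h3, by omega, by omega⟩
    · rintro ⟨a, b⟩ ⟨-, h6⟩
      simp only at h6 ⊢
      subst h6; simp
  have h4 : ∀ j ∈ Finset.range J,
        (mf (fun p : LL => WinP x h p ∧ 2 ^ j ≤ wd p.1 ∧ (2 ^ j ≤ wd p.2 ∧ wd p.2 < 2 * 2 ^ j))
          (fun p => p.1 ++ p.2) +
        mf (fun p : LL => WinP x h p ∧ 2 ^ j ≤ wd p.2 ∧ (2 ^ j ≤ wd p.1 ∧ wd p.1 < 2 * 2 ^ j))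
          (fun p => p.1 ++ p.2)) ≤ (3264 * J : ℕ) * U h := by
    intro j hj
    rw [Finset.mem_range] at hj
    have hb : 1 ≤ 2 ^ j := Nat.one_le_two_pow
    have e1 := scale_const hb (U h) (winA hb x h)
    have e2 := scale_const hb (U h) (winB hb x h)
    rw [Nat.log_pow (by norm_num)] at e1 e2
    refine (add_le_add e1 e2).trans ?_
    rw [← add_mul]
    refine mul_le_mul' ?_ le_rfl
    have : 48 * (2 + 16 * (j + 2)) + 48 * (2 + 16 * (j + 2)) ≤ 3264 * J := by omega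
    exact_mod_cast this
  calc _ ≤ _ := h1
    _ ≤ (U h + U h) + ∑ j ∈ Finset.range J, (3264 * J : ℕ) * U h :=
        add_le_add (add_le_add h2 h3) (Finset.sum_le_sum h4)
    _ = (2 + 3264 * J ^ 2 : ℕ) * U h := by
        rw [Finset.sum_const, Finset.card_range, nsmul_eq_mul]
        push_cast; ring
    _ ≤ _ := by
        refine mul_le_mul' ?_ le_rfl
        rw [← hJ]
        have hJ1 : 1 ≤ J := by omega
        exact_mod_cast (by nlinarith : 2 + 3264 * J ^ 2 ≤ 4000 * J ^ 2)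

end Pool.Agent.K1H95.SW
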